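import Pool.Agent.H633R2.Ctr.Red

/-!
# Edge contraction to graphs avoiding `K_{1,6}` and `K_3 + K_1`
-/

namespace Pool.Agent.Results.MP_09c861_lc.ContractionPair

open Pool.Agent.H633R2 Pool.Agent.NPC

/-- `K_{1,6}`-Free Contraction and `(K_3 + K_1)`-Free Contraction, parameterized by the number `k`
of contracted edges, are both W[2]-hard, but `{K_{1,6}, K_3 + K_1}`-Free Contraction is
fixed-parameter tractable; hence the latter problem is not W[2]-hard unless every problem in W[2]
is fixed-parameter tractable. -/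
theorem result :
    W2Hard (fun x : List (List Bool) × ℕ => x.2) (FreeContraction star6) ∧
    W2Hard (fun x : List (List Bool) × ℕ => x.2) (FreeContraction triPt) ∧
    IsFpt (fun x : List (List Bool) × ℕ => x.2) (FreeContraction₂ star6 triPt) ∧
    ((∃ (α : Type) (_ : TEnc α) (κ : α → ℕ) (P : α → Prop), InW2 κ P ∧ ¬ IsFpt κ P) →
      ¬ W2Hard (fun x : List (List Bool) × ℕ => x.2) (FreeContraction₂ star6 triPt)) := by
  have h : IsFpt (fun x : List (List Bool) × ℕ => x.2) (FreeContraction₂ star6 triPt) := by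
    obtain ⟨d, hd, hd'⟩ := H633.isFpt_sol
    exact ⟨d, hd, fun x => (hd' x).trans (Ctr.sol_iff x)⟩
  refine ⟨H633.w2Hard_star, H633.w2Hard_tri, h, ?_⟩
  rintro ⟨α, hα, κ, P, hP, hn⟩ hW
  exact hn (IsFpt.of_reduces (hW α κ P hP) h)

end Pool.Agent.Results.MP_09c861_lc.ContractionPair
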